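import Pool.Agent.Q54.BZ.Cmp

/-!
# The regulator isomorphism for one model and for one smooth affine cubic hypersurface over `ℤ`

Let `q_0, …, q_r` be polynomials of degree at most two in `M` variables over `ℤ`. The cubic
hypersurface `E_q : ∑ λ_j q_j(x) = 1` in the affine space of dimension `M + r + 1` over `ℤ`
(`hypO q 1`) is smooth over `ℤ`. For an arithmetic scheme `X` and an integer `n` let `PerfectIn n X`
be the statement that for all `m` the height pairing between `CH_n(X, m - 2 n) ⊗ ℝ` and the
Arakelov motivic cohomology with compact supports `Ĥ_c^m(X, ℝ(n))` is perfect. We show: for every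
regular connected scheme `X`, proper and flat over `ℤ`, there are `q` and `s` such that the
assertion of the question for `X` is equivalent to `PerfectIn (s + r) E_q`, that is to the
perfectness of the pairings of `E_q` in the single weight `M + 1 - s` (codimension); and with the
same `q` and `s` the pairings of `X` of weight `n` are perfect if and only if those of `E_q` of
weight `n + s + r` are perfect, for all `n`.
-/

namespace Pool.Agent.Results.MP_51fc19_nt.CubicForOneModel

open Q54.BZ Q54.CU CategoryTheory AlgebraicGeometry

/-- **The regulator isomorphism for one model and for one smooth affine cubic hypersurface.** -/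
theorem result (D : ℤ → ℤ → SchO ℤ → RegSp) (hD : IsHeightTheory D)
    (point : ∀ n, PerfectIn D n ptZ) (X : SchO ℤ) (hX : IsArith X) (hT : HasTorsorZ X) :
    ∃ (M r s : ℕ) (q : Fin (r + 1) → MvPolynomial (Fin M) ℤ), (∀ j, (q j).totalDegree ≤ 2) ∧
      IsSmoothAffineCubic q ∧
      (∀ n : ℤ, PerfectIn D n X ↔ PerfectIn D (n + s + r) (hypO q 1)) ∧
      ∀ R : Comparison D X, RegulatorIso R ↔ PerfectIn D (s + r) (hypO q 1) := by
  obtain ⟨M, r, s, q, hq, h⟩ := perf_scheme hD point hX hT
  refine ⟨M, r, s, q, hq, isSmoothAffineCubic q hq, fun n => (h n).symm, fun R => ?_⟩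
  rw [iso_iff, ← h 0, zero_add]

end Pool.Agent.Results.MP_51fc19_nt.CubicForOneModel
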