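import Pool.Agent.Q54.BZ.Cmp

/-!
# The height pairings in one weight are perfect for all arithmetic schemes iff for the smooth affine
cubic hypersurfaces

Let `q_0, …, q_r` be polynomials of degree at most two in `M` variables over `ℤ`. The cubic
hypersurface `E_q : ∑ λ_j q_j(x) = 1` in the affine space of dimension `M + r + 1` over `ℤ`
(`hypO q 1`) is smooth over `ℤ`. For an arithmetic scheme `X` and an integer `n` let `PerfectIn n X`
be the statement that for all `m` the height pairing between `CH_n(X, m - 2 n) ⊗ ℝ` and the
Arakelov motivic cohomology with compact supports `Ĥ_c^m(X, ℝ(n))` is perfect. We show, for every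
`n`: `PerfectIn n X` holds for all arithmetic schemes `X` if and only if `PerfectIn (n + r) E_q`
holds for all `q` (the codimension is `M + 1 - n`). For `n = 0` this implies the assertion of the
question for all `X`.
-/

namespace Pool.Agent.Results.MP_51fc19_nt.CubicsDecideEachWeight

open Q54.BZ Q54.CU CategoryTheory AlgebraicGeometry

/-- **Smooth affine cubic hypersurfaces decide the perfectness of the pairings in each weight.** The
hypersurfaces `E_q` are affine and smooth over `ℤ` (`IsSmoothAffineCubic`). (1) For every `n` the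
pairings of weight `n` are perfect for all arithmetic schemes if and only if those of weight `n + r`
are perfect for all `E_q`. (2) If the pairings of weight `r` are perfect for all `E_q`, then the
assertion of the question holds for all `X`. -/
theorem result (D : ℤ → ℤ → SchO ℤ → RegSp) (hD : IsHeightTheory D)
    (point : ∀ n, PerfectIn D n ptZ) :
    (∀ (M r : ℕ) (q : Fin (r + 1) → MvPolynomial (Fin M) ℤ), (∀ j, (q j).totalDegree ≤ 2) →
      IsSmoothAffineCubic q) ∧
    (∀ n : ℤ, (∀ X : SchO ℤ, IsArith X → PerfectIn D n X) ↔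
      ∀ (M r : ℕ) (q : Fin (r + 1) → MvPolynomial (Fin M) ℤ), (∀ j, (q j).totalDegree ≤ 2) →
        PerfectIn D (n + r) (hypO q 1)) ∧
    ((∀ (M r : ℕ) (q : Fin (r + 1) → MvPolynomial (Fin M) ℤ), (∀ j, (q j).totalDegree ≤ 2) →
      PerfectIn D r (hypO q 1)) → ∀ X : SchO ℤ, IsArith X → ∀ R : Comparison D X,
        RegulatorIso R) := by
  have h3 : ∀ n : ℤ, (∀ X : SchO ℤ, IsArith X → PerfectIn D n X) ↔
      ∀ (M r : ℕ) (q : Fin (r + 1) → MvPolynomial (Fin M) ℤ), (∀ j, (q j).totalDegree ≤ 2) →
        PerfectIn D (n + r) (hypO q 1) := fun n => (perf_all hD point n).out 0 2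
  refine ⟨fun M r q hq => isSmoothAffineCubic q hq, h3, ?_⟩
  intro h X hX R
  rw [iso_iff]
  refine (h3 0).2 (fun M r q hq => ?_) X hX
  rw [zero_add]
  exact h M r q hq

end Pool.Agent.Results.MP_51fc19_nt.CubicsDecideEachWeight
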