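import Pool.Agent.H51BS.Flat

/-!
# The regulator in degrees at most zero and rational function fields
-/

set_option autoImplicit false

namespace Pool.Agent.Results.MP_51fc19_nt.DegreesAtMostZero

open Pool.Agent.H51BS

/-- (A) For arithmetic surfaces the following are equivalent:

1. for all `X` as in the question with `d = dim X ≤ 2` and all `i ≥ 1` with `2d - 1 - i ≤ 0` the map
   `r_i` is bijective;
2. `Hʲ(E, ℚ(2)) = 0` for all `j ≤ 0` and all fields `E` of transcendence degree at most one over
   `ℚ`;
3. `Hʲ(ℚ(t₁, t₂), ℚ(3))` is finite dimensional for all `j ≤ 1`.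

(B) For every `D` with `CharPart M D` the following are equivalent:

1. for all `X` as in the question with `d = dim X ≤ D` and all `i ≥ 1` with `2d - 1 - i ≤ 0` the map
   `r_i` is bijective;
2. `Hʲ(E, ℚ(s)) = 0` for all `j ≤ 0`, `1 ≤ s ≤ D` and all fields `E` of transcendence degree at most
   `s - 1` over `ℚ`;
3. `Hʲ(ℚ(t₁, …, t_s), ℚ(s+1))` is finite dimensional for all `j ≤ 1` and `1 ≤ s ≤ D`. -/
theorem result (M : RegulatorTheory) :
    [QuestionLow M 2, CurvesZero M, PlaneFinite M].TFAE ∧
    ∀ D : ℕ, CharPart M D → [QuestionLow M D, FieldsQ M D, RationalQ M D].TFAE :=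
  ⟨main_surfaces M, main_flat M⟩

end Pool.Agent.Results.MP_51fc19_nt.DegreesAtMostZero
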