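import Pool.Agent.Q56.SP.Exa
set_option autoImplicit false

/-!
The regulator isomorphism for powers of an arithmetic scheme and for the symmetric powers of its
square.

Let `𝒴` be a connected regular scheme, proper and flat over `ℤ`, on which the permutations of
`2n + r` letters act; for example `𝒴 = 𝒳^(2n+r)`, the fibre power over the ring of integers `O` of a
number field of a scheme `𝒳` which is smooth and proper over `O` with geometrically connected fibres.
Let `S_n` be the group which permutes the `n` pairs of letters; the quotient `𝒴 / S_n` is
`Sym^n(𝒳 × 𝒳) × 𝒳^r` in the example. The rational motivic cohomology of the quotient, its real Deligne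
cohomology and its group of cycles of codimension `0` are the `S_n`-invariants of those of `𝒴`. We
prove that the assertion of Q1 holds for `𝒴` if and only if it holds for this quotient, of which `𝒴`
is a covering of degree `n!`. The group of all permutations has `(2n+r)!` elements.

The proof shows that every nonzero rational representation of the symmetric group on `2n` letters
has a nonzero vector fixed by this group `S_n`.
-/

namespace Pool.Agent.Results.MP_51fc19_nt.SymmetricPowersOfSquares

open Equiv Function Pool.Agent.Q56.SP

/-- The ingredients of Q1 for one scheme of dimension `d`: `M p` and `D p` are the real vector spaces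
`M^p` and `D^p` of the problem file, `C = CH^0(X)^*_ℝ`, `reg p` is restriction to the generic fibre
followed by the regulator in degree `p`, and `tr : D^(2d-1) → C` is the natural map, the sum over the
archimedean places. -/
structure Regulators where
  d : ℤ
  M : ℤ → Type
  D : ℤ → Type
  C : Type
  [groupM : ∀ p, AddCommGroup (M p)]
  [moduleM : ∀ p, Module ℝ (M p)]
  [groupD : ∀ p, AddCommGroup (D p)]
  [moduleD : ∀ p, Module ℝ (D p)]
  [groupC : AddCommGroup C]
  [moduleC : Module ℝ C]
  reg : ∀ p, M p →ₗ[ℝ] D p
  tr : D (2 * d - 1) →ₗ[ℝ] C

attribute [instance] Regulators.groupM Regulators.moduleM Regulators.groupD Regulators.moduleD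
  Regulators.groupC Regulators.moduleC

/-- The assertion of Q1: `r_i`, the map `reg` in degree `2d - 1 - i`, is bijective for all `i ≥ 1`,
and `r_0` fits into a short exact sequence `0 → M^(2d-1) → D^(2d-1) → C → 0`. -/
def Regulators.Conjecture (B : Regulators) : Prop :=
  (∀ i : ℕ, 1 ≤ i → Bijective (B.reg (2 * B.d - 1 - i))) ∧ Injective (B.reg (2 * B.d - 1)) ∧
    ∃ f : B.D (2 * B.d - 1) →ₗ[ℝ] B.C, Exact (B.reg (2 * B.d - 1)) f ∧ Surjective f

/-- The known facts in degree `2d - 1`: real Deligne cohomology is finite-dimensional, the natural
map `tr` is surjective, and it vanishes on regulators (the product formula). -/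
def Regulators.ProductFormula (B : Regulators) : Prop :=
  FiniteDimensional ℝ (B.D (2 * B.d - 1)) ∧ Surjective B.tr ∧ ∀ x, B.tr (B.reg _ x) = 0

/-- The ingredients of Q1 for a scheme on which the permutations of `2n + r` letters act, for example
a power with `2n + r` factors, indexed by `(Fin n × Bool) ⊕ Fin r`: the regulators and the map `tr`
are compatible with the action. -/
structure PowerRegulators (n r : ℕ) extends Regulators where
  onM : ∀ p, Representation ℝ (Perm ((Fin n × Bool) ⊕ Fin r)) (M p)
  onD : ∀ p, Representation ℝ (Perm ((Fin n × Bool) ⊕ Fin r)) (D p)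
  onC : Representation ℝ (Perm ((Fin n × Bool) ⊕ Fin r)) C
  reg_equivariant : ∀ p g x, reg p (onM p g x) = onD p g (reg p x)
  tr_equivariant : ∀ g x, tr (onD _ g x) = onC g (tr x)

/-- The permutation of the `2n + r` letters given by a permutation `σ` of the `n` pairs. -/
def pairPerm {n : ℕ} (r : ℕ) (σ : Perm (Fin n)) : Perm ((Fin n × Bool) ⊕ Fin r) :=
  (σ.prodCongr (Equiv.refl Bool)).sumCongr (Equiv.refl (Fin r))

/-- The vectors fixed by the permutations of the `n` pairs. -/
def invariants {n r : ℕ} {V : Type} [AddCommGroup V] [Module ℝ V]
    (ρ : Representation ℝ (Perm ((Fin n × Bool) ⊕ Fin r)) V) : Submodule ℝ V where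
  carrier := {v | ∀ σ : Perm (Fin n), ρ (pairPerm r σ) v = v}
  add_mem' := fun hv hw σ => by rw [map_add, hv σ, hw σ]
  zero_mem' := fun σ => map_zero _
  smul_mem' := fun c v hv σ => by rw [map_smul, hv σ]

/-- The ingredients of Q1 for the quotient by the group `S_n` which permutes the `n` pairs: the
invariants and the restricted maps. -/
def PowerRegulators.quotient {n r : ℕ} (B : PowerRegulators n r) : Regulators where
  d := B.d
  M := fun p => invariants (B.onM p)
  D := fun p => invariants (B.onD p)
  C := invariants B.onC
  reg := fun p => (B.reg p).restrict fun v hv σ => by rw [← B.reg_equivariant, hv σ]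
  tr := B.tr.restrict fun v hv σ => by rw [← B.tr_equivariant, hv σ]

/-- The existence of the short exact sequence is the exactness of the one given by `tr`. -/
theorem exists_iff {B : Regulators} (hB : B.ProductFormula) :
    (∃ f : B.D (2 * B.d - 1) →ₗ[ℝ] B.C, Exact (B.reg (2 * B.d - 1)) f ∧ Surjective f) ↔
      Exact (B.reg (2 * B.d - 1)) B.tr := by
  obtain ⟨hfin, hsur, hzero⟩ := hB
  refine ⟨fun ⟨f, hf, hs⟩ => ?_, fun h => ⟨B.tr, h, hsur⟩⟩
  rw [LinearMap.exact_iff] at hf ⊢
  refine (Submodule.eq_of_le_of_finrank_eq ?_ ?_).symm
  · rintro _ ⟨x, rfl⟩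
    exact hzero x
  · have h1 := LinearMap.finrank_range_add_finrank_ker f
    have h2 := LinearMap.finrank_range_add_finrank_ker B.tr
    rw [LinearMap.range_eq_top.mpr hs, finrank_top] at h1
    rw [LinearMap.range_eq_top.mpr hsur, finrank_top] at h2
    rw [← hf]
    omega

/-- The known facts in degree `2d - 1` pass to the quotient. -/
theorem quotient_productFormula {n r : ℕ} {B : PowerRegulators n r} (hB : B.ProductFormula) :
    B.quotient.ProductFormula := by
  obtain ⟨hfin, hsur, hzero⟩ := hB
  exact ⟨FiniteDimensional.finiteDimensional_submodule (invariants (B.onD (2 * B.d - 1))),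
    (surjective_iff B.tr B.tr_equivariant).mp hsur, fun x => Subtype.ext (hzero x.1)⟩

/-- The assertion of Q1 holds for the scheme, for example the power `𝒳^(2n+r)`, if and only if it
holds for its quotient by `S_n`, for example `Sym^n(𝒳 × 𝒳) × 𝒳^r`. -/
theorem result {n r : ℕ} (B : PowerRegulators n r) (hB : B.ProductFormula) :
    B.Conjecture ↔ B.quotient.Conjecture := by
  refine and_congr ?_ (and_congr ?_ ?_)
  · exact forall₂_congr fun i _ => bijective_iff (B.reg _) (B.reg_equivariant _)
  · exact injective_iff (B.reg _) (B.reg_equivariant _)
  · rw [exists_iff hB, exists_iff (quotient_productFormula hB)]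
    exact exact_iff (B.reg _) B.tr (B.reg_equivariant _) B.tr_equivariant

end Pool.Agent.Results.MP_51fc19_nt.SymmetricPowersOfSquares
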